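import Pool.Agent.helper43.BMH.Spec

/-! # Row bmh:NAP (MP_cef0b4_gt): norms of concatenated vectors -/

set_option autoImplicit false

namespace Pool.Agent.helper43.BMH

open scoped ENNReal
open Pool.Agent.helper75.BM (nrm N2 L dBM)

theorem NAP_sup (m r : ℕ) (a : Fin m → ℝ) (b : Fin r → ℝ) :
    (⨆ i, |Fin.append a b i|) = max (⨆ i, |a i|) (⨆ i, |b i|) := by
  have hb : ∀ (n : ℕ) (f : Fin n → ℝ), BddAbove (Set.range f) := fun n f =>
    (Set.finite_range f).bddAbove
  apply le_antisymm
  · apply Real.iSup_le
    · intro i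
      refine Fin.addCases (fun j => ?_) (fun j => ?_) i
      · rw [Fin.append_left]
        exact le_trans (le_ciSup (hb _ fun i => |a i|) j) (le_max_left _ _)
      · rw [Fin.append_right]
        exact le_trans (le_ciSup (hb _ fun i => |b i|) j) (le_max_right _ _)
    · exact le_trans (Real.iSup_nonneg fun i => abs_nonneg _) (le_max_left _ _)
  · have h0 : (0 : ℝ) ≤ ⨆ i, |Fin.append a b i| := Real.iSup_nonneg fun i => abs_nonneg _
    apply max_le
    · apply Real.iSup_le _ h0
      intro i
      have h := le_ciSup (hb _ fun i => |Fin.append a b i|) (Fin.castAdd r i)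
      simp only [Fin.append_left] at h
      exact h
    · apply Real.iSup_le _ h0
      intro i
      have h := le_ciSup (hb _ fun i => |Fin.append a b i|) (Fin.natAdd m i)
      simp only [Fin.append_right] at h
      exact h

theorem t_nap : NAP := by
  intro p _ m r a b
  by_cases hp : p = ⊤
  · subst hp
    rw [Pool.Agent.helper75.BM.nrm_top, Pool.Agent.helper75.BM.nrm_top,
      Pool.Agent.helper75.BM.nrm_top, NAP_sup]
    unfold N2
    rw [if_pos rfl, abs_of_nonneg (Real.iSup_nonneg fun i => abs_nonneg _),
      abs_of_nonneg (Real.iSup_nonneg fun i => abs_nonneg _)]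
  · rw [Pool.Agent.helper75.BM.nrm_eq hp (Fin.append a b)]
    unfold N2
    rw [if_neg hp, abs_of_nonneg (Pool.Agent.helper75.BM.nrm_nonneg a),
      abs_of_nonneg (Pool.Agent.helper75.BM.nrm_nonneg b),
      Pool.Agent.helper75.BM.nrm_rpow hp, Pool.Agent.helper75.BM.nrm_rpow hp, Fin.sum_univ_add]
    simp only [Fin.append_left, Fin.append_right]

end Pool.Agent.helper43.BMH
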